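import Mathlib
import Pool.Agent.H640R2.PhaseMuC

set_option autoImplicit false

namespace Pool.Agent.Q161.BW

open Module

theorem cons_basis {F : Type*} [NormedAddCommGroup F] [InnerProductSpace ℂ F] [FiniteDimensional ℂ F]
    {n : ℕ} (hn : finrank ℂ F = n + 1) (x : F) (hx : ‖x‖ = 1)
    (b' : OrthonormalBasis (Fin n) ℂ ((Submodule.span ℂ {x})ᗮ : Submodule ℂ F)) :
    ∃ b : OrthonormalBasis (Fin (n + 1)) ℂ F, b 0 = x ∧ ∀ i : Fin n, b i.succ = (b' i : F) := by
  set v : Fin (n + 1) → F := Fin.cons x (fun i => (b' i : F)) with hv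
  have hort : ∀ i : Fin n, inner ℂ x (b' i : F) = 0 := fun i =>
    Submodule.mem_orthogonal_singleton_iff_inner_right.1 (b' i).2
  have hon : Orthonormal ℂ v := by
    constructor
    · intro i
      refine Fin.cases ?_ (fun j => ?_) i
      · simpa [hv] using hx
      · have h1 : ‖(b' j : F)‖ = 1 := b'.norm_eq_one j
        simpa [hv] using h1
    · intro i j hij
      revert hij
      refine Fin.cases ?_ (fun i' => ?_) i
      · refine Fin.cases ?_ (fun j' => ?_) j
        · intro h; exact absurd rfl h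
        · intro _; simpa [hv] using hort j'
      · refine Fin.cases ?_ (fun j' => ?_) j
        · intro _
          have := hort i'
          rw [← inner_conj_symm, map_eq_zero] at this
          simpa [hv] using this
        · intro h
          have h' : i' ≠ j' := fun e => h (by rw [e])
          have := b'.inner_eq_zero h'
          simpa [hv] using this
  have hcard : Fintype.card (Fin (n + 1)) = finrank ℂ F := by simp [hn]
  set B := basisOfOrthonormalOfCardEqFinrank hon hcard with hB
  have hBv : (B : Fin (n + 1) → F) = v := coe_basisOfOrthonormalOfCardEqFinrank hon hcard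
  refine ⟨B.toOrthonormalBasis (by rw [hBv]; exact hon), ?_, ?_⟩
  · rw [Basis.coe_toOrthonormalBasis, hBv]; rfl
  · intro i
    rw [Basis.coe_toOrthonormalBasis, hBv]; rfl

theorem zero_diag (n : ℕ) : ∀ (F : Type) [NormedAddCommGroup F] [InnerProductSpace ℂ F]
    [FiniteDimensional ℂ F], finrank ℂ F = n → ∀ A : F →ₗ[ℂ] F, LinearMap.trace ℂ F A = 0 →
      ∃ b : OrthonormalBasis (Fin n) ℂ F, ∀ i, inner ℂ (b i) (A (b i)) = 0 := by
  induction n with
  | zero =>
    intro F _ _ _ hn A _
    exact ⟨(stdOrthonormalBasis ℂ F).reindex (finCongr hn), fun i => i.elim0⟩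
  | succ n ih =>
    intro F _ _ _ hn A hA
    set b0 : OrthonormalBasis (Fin (n + 1)) ℂ F := (stdOrthonormalBasis ℂ F).reindex (finCongr hn)
    rw [LinearMap.trace_eq_sum_inner A b0] at hA
    have hconv := H640R2.PhaseMu.toeplitz_hausdorff (LinearMap.toContinuousLinearMap A)
    have h0 : (0 : ℂ) ∈ {z : ℂ | ∃ x : F, ‖x‖ = 1 ∧
        inner ℂ x ((LinearMap.toContinuousLinearMap A) x) = z} := by
      have := hconv.sum_mem (t := Finset.univ) (w := fun _ : Fin (n + 1) => ((n : ℝ) + 1)⁻¹)
        (z := fun i => inner ℂ (b0 i) (A (b0 i))) (fun i _ => by positivity)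
        (by simp; field_simp) (fun i _ => ⟨b0 i, b0.norm_eq_one i, rfl⟩)
      rwa [← Finset.smul_sum, hA, smul_zero] at this
    obtain ⟨x, hx, hx0⟩ := h0
    have hx0' : inner ℂ x (A x) = 0 := hx0
    have hxne : x ≠ 0 := by rintro rfl; simp at hx
    have : Fact (finrank ℂ F = n + 1) := ⟨hn⟩
    have hK : finrank ℂ ((Submodule.span ℂ {x})ᗮ : Submodule ℂ F) = n :=
      Submodule.finrank_orthogonal_span_singleton hxne
    set K : Submodule ℂ F := (Submodule.span ℂ {x})ᗮ with hKdef
    set A' : K →ₗ[ℂ] K := (K.orthogonalProjectionOnto : F →L[ℂ] K).toLinearMap ∘ₗ A ∘ₗ K.subtype with hA'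
    have key : ∀ y : K, inner ℂ y (A' y) = inner ℂ (y : F) (A (y : F)) := by
      intro y
      have h1 : inner ℂ y (A' y) = inner ℂ (y : F) ((A' y : K) : F) := rfl
      have h2 : ((A' y : K) : F) = K.starProjection (A (y : F)) := rfl
      rw [h1, h2, ← Submodule.inner_starProjection_left_eq_right,
        Submodule.starProjection_eq_self_iff.mpr y.2]
    have htr : LinearMap.trace ℂ K A' = 0 := by
      set b1 : OrthonormalBasis (Fin n) ℂ K := (stdOrthonormalBasis ℂ K).reindex (finCongr hK)
      obtain ⟨c, hc0, hcs⟩ := cons_basis hn x hx b1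
      have h3 := LinearMap.trace_eq_sum_inner A c
      rw [LinearMap.trace_eq_sum_inner A b0, hA, Fin.sum_univ_succ, hc0, hx0', zero_add] at h3
      rw [LinearMap.trace_eq_sum_inner A' b1, h3]
      refine Finset.sum_congr rfl fun i _ => ?_
      rw [key, hcs]
    obtain ⟨b2, hb2⟩ := ih K hK A' htr
    obtain ⟨c, hc0, hcs⟩ := cons_basis hn x hx b2
    refine ⟨c, fun i => ?_⟩
    refine Fin.cases ?_ (fun j => ?_) i
    · rw [hc0]; exact hx0'
    · rw [hcs, ← key]; exact hb2 j

end Pool.Agent.Q161.BW
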