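import Mathlib
import Pool.Agent.Q161.BW.ZeroDiag

set_option autoImplicit false

namespace Pool.Agent.Q161.BW

open Module Matrix

variable {ι κ μ : Type} [Fintype ι] [DecidableEq ι] [Fintype κ] [DecidableEq κ] [Fintype μ] [DecidableEq μ]

/-- squared Frobenius norm -/
noncomputable def fr (Z : Matrix ι κ ℂ) : ℝ := ∑ i, ∑ j, ‖Z i j‖ ^ 2

/-- the action of a matrix on the Hilbert space -/
noncomputable def ap (Z : Matrix ι κ ℂ) (x : EuclideanSpace ℂ κ) : EuclideanSpace ℂ ι :=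
  Matrix.toEuclideanLin Z x

theorem ap_mul (Z : Matrix ι κ ℂ) (W : Matrix κ μ ℂ) (x : EuclideanSpace ℂ μ) :
    ap (Z * W) x = ap Z (ap W x) := by
  simp only [ap, Matrix.toLpLin_apply, Matrix.mulVec_mulVec]

theorem inner_ap (Z : Matrix ι κ ℂ) (x : EuclideanSpace ℂ ι) (y : EuclideanSpace ℂ κ) :
    inner ℂ x (ap Z y) = inner ℂ (ap Zᴴ x) y := by
  rw [ap, ap, Matrix.toEuclideanLin_conjTranspose_eq_adjoint, LinearMap.adjoint_inner_left]

theorem fr_eq_trace (Z : Matrix ι κ ℂ) : (Zᴴ * Z).trace = (fr Z : ℂ) := by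
  rw [fr, Matrix.trace]
  simp only [Matrix.diag_apply, Matrix.mul_apply, Matrix.conjTranspose_apply]
  rw [Finset.sum_comm]
  push_cast
  refine Finset.sum_congr rfl fun i _ => Finset.sum_congr rfl fun j _ => ?_
  exact Complex.conj_mul' (Z i j)

theorem fr_nonneg (Z : Matrix ι κ ℂ) : 0 ≤ fr Z :=
  Finset.sum_nonneg fun _ _ => Finset.sum_nonneg fun _ _ => by positivity

theorem fr_conjTranspose (Z : Matrix ι κ ℂ) : fr Zᴴ = fr Z := by
  rw [fr, fr, Finset.sum_comm]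
  simp

theorem trace_eq_sum {n : ℕ} (Z : Matrix κ κ ℂ) (b : OrthonormalBasis (Fin n) ℂ (EuclideanSpace ℂ κ)) :
    Z.trace = ∑ i, inner ℂ (b i) (ap Z (b i)) := by
  have h1 : Z.trace = LinearMap.trace ℂ _ (Matrix.toEuclideanLin Z) := by
    rw [Matrix.toEuclideanLin_eq_toLin_orthonormal, Matrix.trace_toLin_eq]
  rw [h1, LinearMap.trace_eq_sum_inner _ b]
  rfl

theorem fr_eq_sum {n : ℕ} (Z : Matrix ι κ ℂ) (b : OrthonormalBasis (Fin n) ℂ (EuclideanSpace ℂ κ)) :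
    fr Z = ∑ i, ‖ap Z (b i)‖ ^ 2 := by
  have h := trace_eq_sum (Zᴴ * Z) b
  rw [fr_eq_trace] at h
  have h2 : ∀ i, inner ℂ (b i) (ap (Zᴴ * Z) (b i)) = ((‖ap Z (b i)‖ ^ 2 : ℝ) : ℂ) := by
    intro i
    rw [ap_mul, inner_ap, Matrix.conjTranspose_conjTranspose, inner_self_eq_norm_sq_to_K]
    push_cast; rfl
  simp only [h2] at h
  exact_mod_cast h

/-- trace zero matrices have zero diagonal in some orthonormal basis -/
theorem exists_zero_diag (M : Matrix κ κ ℂ) (hM : M.trace = 0) :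
    ∃ b : OrthonormalBasis (Fin (Fintype.card κ)) ℂ (EuclideanSpace ℂ κ),
      ∀ i, inner ℂ (b i) (ap M (b i)) = 0 := by
  refine zero_diag (Fintype.card κ) (EuclideanSpace ℂ κ) (by simp) (Matrix.toEuclideanLin M) ?_
  rw [← hM, Matrix.toEuclideanLin_eq_toLin_orthonormal, Matrix.trace_toLin_eq]

/-- The variance bound -/
theorem variance (X : Matrix ι ι ℂ) (s : ℝ)
    (hP : ∀ ψ : EuclideanSpace ℂ ι, (‖ap X ψ‖ ^ 2 + ‖ap Xᴴ ψ‖ ^ 2) * ‖ψ‖ ^ 2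
      ≤ s * ‖ψ‖ ^ 4 + 2 * ‖inner ℂ ψ (ap X ψ)‖ ^ 2) (S : Matrix ι κ ℂ) :
    (fr (X * S) + fr (Xᴴ * S)) * fr S ≤ s * fr S ^ 2 + 2 * ‖(Sᴴ * X * S).trace‖ ^ 2 := by
  by_cases h0 : fr S = 0
  · rw [h0]; nlinarith [norm_nonneg (Sᴴ * X * S).trace]
  have hpos : 0 < fr S := lt_of_le_of_ne (fr_nonneg S) (Ne.symm h0)
  set c : ℂ := (Sᴴ * X * S).trace / (fr S : ℂ) with hc
  have hfc : (fr S : ℂ) ≠ 0 := by exact_mod_cast h0
  have htr : (Sᴴ * (X - c • (1 : Matrix ι ι ℂ)) * S).trace = 0 := by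
    rw [Matrix.mul_sub, Matrix.sub_mul, Matrix.trace_sub, Matrix.mul_smul, Matrix.mul_one,
      Matrix.smul_mul, Matrix.trace_smul, fr_eq_trace, hc, smul_eq_mul, div_mul_cancel₀ _ hfc, sub_self]
  obtain ⟨b, hb⟩ := exists_zero_diag _ htr
  have h1 : ∀ i, inner ℂ (ap S (b i)) (ap X (ap S (b i))) = c * ((‖ap S (b i)‖ ^ 2 : ℝ) : ℂ) := by
    intro i
    have h2 := hb i
    rw [ap_mul, ap_mul, inner_ap, Matrix.conjTranspose_conjTranspose] at h2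
    have h3 : ap (X - c • (1 : Matrix ι ι ℂ)) (ap S (b i)) = ap X (ap S (b i)) - c • ap S (b i) := by
      rw [ap, map_sub, map_smul]
      have : Matrix.toEuclideanLin X (ap S (b i)) = ap X (ap S (b i)) := rfl
      rw [← this]
      simp [Matrix.toLpLin_apply]
    rw [h3, inner_sub_right, inner_smul_right, sub_eq_zero, inner_self_eq_norm_sq_to_K] at h2
    rw [h2]; push_cast; rfl
  have h4 : ∀ i, ‖ap X (ap S (b i))‖ ^ 2 + ‖ap Xᴴ (ap S (b i))‖ ^ 2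
      ≤ (s + 2 * ‖c‖ ^ 2) * ‖ap S (b i)‖ ^ 2 := by
    intro i
    have h5 := hP (ap S (b i))
    rw [h1, norm_mul, Complex.norm_real, Real.norm_of_nonneg (by positivity)] at h5
    by_cases hz : ‖ap S (b i)‖ = 0
    · have hz' : ap S (b i) = 0 := norm_eq_zero.1 hz
      rw [hz']
      simp [ap]
    · have hzp : 0 < ‖ap S (b i)‖ ^ 2 := by positivity
      have h6 : (‖ap X (ap S (b i))‖ ^ 2 + ‖ap Xᴴ (ap S (b i))‖ ^ 2) * ‖ap S (b i)‖ ^ 2
          ≤ ((s + 2 * ‖c‖ ^ 2) * ‖ap S (b i)‖ ^ 2) * ‖ap S (b i)‖ ^ 2 := by nlinarith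
      exact le_of_mul_le_mul_right h6 hzp
  have h7 : fr (X * S) + fr (Xᴴ * S) ≤ (s + 2 * ‖c‖ ^ 2) * fr S := by
    rw [fr_eq_sum (X * S) b, fr_eq_sum (Xᴴ * S) b, fr_eq_sum S b, ← Finset.sum_add_distrib,
      Finset.mul_sum]
    refine Finset.sum_le_sum fun i _ => ?_
    rw [ap_mul, ap_mul]
    exact h4 i
  have h8 : ‖c‖ ^ 2 * fr S ^ 2 = ‖(Sᴴ * X * S).trace‖ ^ 2 := by
    rw [hc, norm_div, Complex.norm_real, Real.norm_of_nonneg hpos.le, div_pow, div_mul_cancel₀]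
    positivity
  nlinarith

end Pool.Agent.Q161.BW
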