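import Mathlib
import Pool.Agent.Q161.BW.Core

set_option autoImplicit false

namespace Pool.Agent.Q161.BW

open Module Matrix

variable {ι κ μ : Type} [Fintype ι] [DecidableEq ι] [Fintype κ] [DecidableEq κ] [Fintype μ] [DecidableEq μ]

theorem norm_trace_sq_le (A B : Matrix ι κ ℂ) : ‖(Aᴴ * B).trace‖ ^ 2 ≤ fr A * fr B := by
  have h1 : ‖(Aᴴ * B).trace‖ ≤ ∑ p : ι × κ, ‖A p.1 p.2‖ * ‖B p.1 p.2‖ := by
    rw [Matrix.trace]
    simp only [Matrix.diag_apply, Matrix.mul_apply, Matrix.conjTranspose_apply]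
    rw [Finset.sum_comm, Fintype.sum_prod_type]
    refine (norm_sum_le _ _).trans (Finset.sum_le_sum fun i _ => ?_)
    refine (norm_sum_le _ _).trans (Finset.sum_le_sum fun j _ => ?_)
    rw [norm_mul, norm_star]
  have h2 := Finset.sum_mul_sq_le_sq_mul_sq (Finset.univ : Finset (ι × κ)) (fun p => ‖A p.1 p.2‖)
    (fun p => ‖B p.1 p.2‖)
  have h3 : fr A = ∑ p : ι × κ, ‖A p.1 p.2‖ ^ 2 := by rw [fr, Fintype.sum_prod_type]
  have h4 : fr B = ∑ p : ι × κ, ‖B p.1 p.2‖ ^ 2 := by rw [fr, Fintype.sum_prod_type]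
  rw [h3, h4]
  exact (pow_le_pow_left₀ (norm_nonneg _) h1 2).trans h2

theorem comm_identity (X Y : Matrix ι ι ℂ) :
    fr (X * Y - Y * X) + fr (Xᴴ * Y + Y * Xᴴ) = fr (X * Y) + fr (X * Yᴴ) + (fr (Xᴴ * Y) + fr (Xᴴ * Yᴴ)) := by
  have e1 : fr (X * Yᴴ) = fr (Y * Xᴴ) := by
    rw [← fr_conjTranspose (X * Yᴴ), Matrix.conjTranspose_mul, Matrix.conjTranspose_conjTranspose]
  have e2 : fr (Xᴴ * Yᴴ) = fr (Y * X) := by
    rw [← fr_conjTranspose (Y * X), Matrix.conjTranspose_mul]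
  rw [e1, e2]
  have h : ((fr (X * Y - Y * X) + fr (Xᴴ * Y + Y * Xᴴ) : ℝ) : ℂ)
      = ((fr (X * Y) + fr (Y * Xᴴ) + (fr (Xᴴ * Y) + fr (Y * X)) : ℝ) : ℂ) := by
    push_cast
    rw [← fr_eq_trace, ← fr_eq_trace, ← fr_eq_trace, ← fr_eq_trace, ← fr_eq_trace, ← fr_eq_trace]
    simp only [Matrix.conjTranspose_sub, Matrix.conjTranspose_add, Matrix.sub_mul, Matrix.mul_sub,
      Matrix.add_mul, Matrix.mul_add, Matrix.trace_sub, Matrix.trace_add, Matrix.conjTranspose_mul,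
      Matrix.conjTranspose_conjTranspose]
    have c1 : (Yᴴ * Xᴴ * (Y * X)).trace = (X * Yᴴ * (Xᴴ * Y)).trace := by
      rw [← Matrix.mul_assoc, Matrix.trace_mul_comm _ X, ← Matrix.mul_assoc, ← Matrix.mul_assoc,
        ← Matrix.mul_assoc]
    have c2 : (Xᴴ * Yᴴ * (X * Y)).trace = (Yᴴ * X * (Y * Xᴴ)).trace := by
      rw [Matrix.mul_assoc Xᴴ, Matrix.trace_mul_comm Xᴴ]
      simp only [Matrix.mul_assoc]
    rw [c1, c2]
    ring
  exact_mod_cast h

theorem comm_bound (X Y : Matrix ι ι ℂ) (s : ℝ)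
    (hP : ∀ ψ : EuclideanSpace ℂ ι, (‖ap X ψ‖ ^ 2 + ‖ap Xᴴ ψ‖ ^ 2) * ‖ψ‖ ^ 2
      ≤ s * ‖ψ‖ ^ 4 + 2 * ‖inner ℂ ψ (ap X ψ)‖ ^ 2) :
    fr (X * Y - Y * X) ≤ 2 * s * fr Y := by
  set S : Matrix ι (ι ⊕ ι) ℂ := Matrix.fromCols Y Yᴴ with hS
  have hmul : ∀ Z : Matrix ι ι ℂ, fr (Z * S) = fr (Z * Y) + fr (Z * Yᴴ) := by
    intro Z
    rw [hS, Matrix.mul_fromCols]
    simp only [fr, Fintype.sum_sum_type, Matrix.fromCols_apply_inl, Matrix.fromCols_apply_inr,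
      Finset.sum_add_distrib]
  have hfr : fr S = 2 * fr Y := by
    have := hmul 1
    rw [Matrix.one_mul, Matrix.one_mul, Matrix.one_mul, fr_conjTranspose] at this
    rw [this]; ring
  have htr : (Sᴴ * X * S).trace = (Yᴴ * X * Y).trace + (Y * X * Yᴴ).trace := by
    rw [hS, Matrix.mul_assoc, Matrix.mul_fromCols, Matrix.conjTranspose_fromCols_eq_fromRows_conjTranspose,
      Matrix.conjTranspose_conjTranspose, Matrix.fromRows_mul_fromCols, Matrix.trace, Fintype.sum_sum_type]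
    simp only [Matrix.mul_assoc, Matrix.diag_apply, Matrix.fromBlocks_apply₁₁,
      Matrix.fromBlocks_apply₂₂, Matrix.trace]
  have hv := variance X s hP S
  rw [hmul, hmul, hfr, htr] at hv
  have hid := comm_identity X Y
  have hcs := norm_trace_sq_le Y (Xᴴ * Y + Y * Xᴴ)
  have hT : ‖(Yᴴ * (Xᴴ * Y + Y * Xᴴ)).trace‖ = ‖(Yᴴ * X * Y).trace + (Y * X * Yᴴ).trace‖ := by
    rw [← norm_star, ← Matrix.trace_conjTranspose, Matrix.conjTranspose_mul,
      Matrix.conjTranspose_conjTranspose, Matrix.conjTranspose_add, Matrix.conjTranspose_mul,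
      Matrix.conjTranspose_mul, Matrix.conjTranspose_conjTranspose, Matrix.add_mul, Matrix.trace_add]
    congr 2
    rw [Matrix.mul_assoc X, Matrix.trace_mul_comm X, Matrix.mul_assoc, Matrix.trace_mul_comm]
  rw [hT] at hcs
  by_cases h0 : fr Y = 0
  · have : Y = 0 := by
      ext i j
      have h1 : ∀ i ∈ Finset.univ, ∑ j, ‖Y i j‖ ^ 2 = 0 :=
        (Finset.sum_eq_zero_iff_of_nonneg (fun i _ => Finset.sum_nonneg fun j _ => by positivity)).1 h0
      have h2 := (Finset.sum_eq_zero_iff_of_nonneg (fun j _ => by positivity)).1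
        (h1 i (Finset.mem_univ i)) j (Finset.mem_univ j)
      have h3 : ‖Y i j‖ = 0 := by
        rcases pow_eq_zero_iff (two_ne_zero) |>.1 h2 with h
        exact h
      simpa using h3
    rw [this, Matrix.mul_zero, Matrix.zero_mul, sub_zero]
    simp [fr]
  have hpos : 0 < fr Y := lt_of_le_of_ne (fr_nonneg Y) (Ne.symm h0)
  have h5 : fr (X * Y - Y * X) * (2 * fr Y) ≤ (2 * s * fr Y) * (2 * fr Y) := by
    have h6 : fr (X * Y - Y * X)
        = fr (X * Y) + fr (X * Yᴴ) + (fr (Xᴴ * Y) + fr (Xᴴ * Yᴴ)) - fr (Xᴴ * Y + Y * Xᴴ) := by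
      linarith
    rw [h6]
    nlinarith
  exact le_of_mul_le_mul_right h5 (by positivity)

end Pool.Agent.Q161.BW
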