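import Mathlib
import Pool.Agent.Q161.BW.Comm

set_option autoImplicit false

namespace Pool.Agent.Q161.BW

open Module Matrix

variable {ι κ μ : Type} [Fintype ι] [DecidableEq ι] [Fintype κ] [DecidableEq κ] [Fintype μ] [DecidableEq μ]

theorem bessel_pair {H : Type*} [NormedAddCommGroup H] [InnerProductSpace ℂ H] (x y w : H)
    (hx : ‖x‖ = 1) (hy : ‖y‖ = 1) (hxy : inner ℂ x y = 0) :
    ‖inner ℂ w x‖ ^ 2 + ‖inner ℂ w y‖ ^ 2 ≤ ‖w‖ ^ 2 := by
  have hon : Orthonormal ℂ ![x, y] := by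
    rw [orthonormal_iff_ite]
    have hyx : inner ℂ y x = 0 := by rw [← inner_conj_symm, hxy, map_zero]
    intro i j
    fin_cases i <;> fin_cases j
    · simp [inner_self_eq_norm_sq_to_K, hx]
    · simpa using hxy
    · simpa using hyx
    · simp [inner_self_eq_norm_sq_to_K, hy]
  have h := hon.sum_inner_products_le (s := Finset.univ) w
  rw [Fin.sum_univ_two] at h
  simp only [Matrix.cons_val_zero, Matrix.cons_val_one] at h
  rwa [norm_inner_symm x, norm_inner_symm y] at h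

theorem pform (X : Matrix ι ι ℂ) (s : ℝ)
    (K1 : ∀ x : EuclideanSpace ℂ ι, ‖x‖ = 1 → ‖ap X x‖ ^ 2 ≤ s)
    (K2 : ∀ x y : EuclideanSpace ℂ ι, ‖x‖ = 1 → ‖y‖ = 1 → inner ℂ x y = 0 →
      ‖ap X x‖ ^ 2 + ‖ap X y‖ ^ 2 ≤ s) (ψ : EuclideanSpace ℂ ι) :
    (‖ap X ψ‖ ^ 2 + ‖ap Xᴴ ψ‖ ^ 2) * ‖ψ‖ ^ 2 ≤ s * ‖ψ‖ ^ 4 + 2 * ‖inner ℂ ψ (ap X ψ)‖ ^ 2 := by
  have unit : ∀ u : EuclideanSpace ℂ ι, ‖u‖ = 1 →
      ‖ap X u‖ ^ 2 + ‖ap Xᴴ u‖ ^ 2 ≤ s + ‖inner ℂ u (ap X u)‖ ^ 2 := by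
    intro u hu
    set c : ℂ := inner ℂ u (ap Xᴴ u) with hc
    set b := ap Xᴴ u - c • u with hb
    have hcn : ‖c‖ = ‖inner ℂ u (ap X u)‖ := by
      rw [hc, inner_ap, Matrix.conjTranspose_conjTranspose, norm_inner_symm]
    have hub : inner ℂ u b = 0 := by
      rw [hb, inner_sub_right, inner_smul_right, inner_self_eq_norm_sq_to_K, hu, ← hc]; simp
    have hbn : ‖ap Xᴴ u‖ ^ 2 = ‖b‖ ^ 2 + ‖c‖ ^ 2 := by
      have e : ap Xᴴ u = b + c • u := by rw [hb]; abel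
      have h0 : inner ℂ b (c • u) = 0 := by
        rw [inner_smul_right, ← inner_conj_symm, hub, map_zero, mul_zero]
      have := norm_add_sq (𝕜 := ℂ) b (c • u)
      rw [h0] at this
      rw [e, this, norm_smul, hu]; simp
    rw [hbn, hcn]
    by_cases hb0 : b = 0
    · rw [hb0]; have := K1 u hu; simp; linarith
    have hbpos : 0 < ‖b‖ := norm_pos_iff.2 hb0
    set v : EuclideanSpace ℂ ι := ((‖b‖⁻¹ : ℝ) : ℂ) • b with hv
    have hvn : ‖v‖ = 1 := by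
      rw [hv, norm_smul, Complex.norm_real, norm_inv, norm_norm, inv_mul_cancel₀ hbpos.ne']
    have huv : inner ℂ u v = 0 := by rw [hv, inner_smul_right, hub, mul_zero]
    have h1 : inner ℂ u (ap X v) = (‖b‖ : ℂ) := by
      rw [inner_ap]
      have e : ap Xᴴ u = b + c • u := by rw [hb]; abel
      rw [e, inner_add_left, inner_smul_left, huv, mul_zero, add_zero, hv, inner_smul_right,
        inner_self_eq_norm_sq_to_K]
      have : (‖b‖ : ℂ) ≠ 0 := by exact_mod_cast hbpos.ne'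
      push_cast
      field_simp
      rfl
    have h2 : ‖b‖ ≤ ‖ap X v‖ := by
      have := norm_inner_le_norm (𝕜 := ℂ) u (ap X v)
      rw [h1, hu, one_mul, Complex.norm_real, norm_norm] at this
      exact this
    have h3 := K2 u v hu hvn huv
    nlinarith [norm_nonneg b]
  by_cases hψ : ψ = 0
  · rw [hψ]; simp [ap]
  have hpos : 0 < ‖ψ‖ := norm_pos_iff.2 hψ
  set u : EuclideanSpace ℂ ι := ((‖ψ‖⁻¹ : ℝ) : ℂ) • ψ with hu
  have hun : ‖u‖ = 1 := by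
    rw [hu, norm_smul, Complex.norm_real, norm_inv, norm_norm, inv_mul_cancel₀ hpos.ne']
  have e : ψ = (‖ψ‖ : ℂ) • u := by
    rw [hu, smul_smul]
    have : (‖ψ‖ : ℂ) ≠ 0 := by exact_mod_cast hpos.ne'
    push_cast
    rw [mul_inv_cancel₀ this, one_smul]
  have e1 : ∀ Z : Matrix ι ι ℂ, ap Z ψ = (‖ψ‖ : ℂ) • ap Z u := by
    intro Z
    conv_lhs => rw [e]
    rw [ap, map_smul]; rfl
  have e2 : ∀ Z : Matrix ι ι ℂ, ‖ap Z ψ‖ = ‖ψ‖ * ‖ap Z u‖ := by
    intro Z; rw [e1, norm_smul, Complex.norm_real, norm_norm]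
  have e3 : ‖inner ℂ ψ (ap X ψ)‖ = ‖ψ‖ ^ 2 * ‖inner ℂ u (ap X u)‖ := by
    have e4 : inner ℂ ψ (ap X ψ) = inner ℂ ((‖ψ‖ : ℂ) • u) ((‖ψ‖ : ℂ) • ap X u) := by
      rw [← e, ← e1]
    rw [e4, inner_smul_left, inner_smul_right, norm_mul, norm_mul, Complex.conj_ofReal,
      Complex.norm_real, norm_norm]
    ring
  rw [e2, e2, e3]
  have h := unit u hun
  have h4 : 0 ≤ ‖ψ‖ ^ 4 := by positivity
  have h5 := mul_le_mul_of_nonneg_left h h4
  nlinarith [norm_nonneg (inner ℂ u (ap X u)), mul_nonneg h4 (sq_nonneg ‖inner ℂ u (ap X u)‖)]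

theorem norm_sq_expand {n : ℕ} {F : Type*} [NormedAddCommGroup F] [InnerProductSpace ℂ F]
    [FiniteDimensional ℂ F] (T : EuclideanSpace ℂ (Fin n) →ₗ[ℂ] F) :
    ∃ b : OrthonormalBasis (Fin n) ℂ (EuclideanSpace ℂ (Fin n)),
      ∀ x, ‖T x‖ ^ 2 = ∑ i : Fin n, (T.singularValues i) ^ 2 * ‖inner ℂ (b i) x‖ ^ 2 := by
  have hn : Module.finrank ℂ (EuclideanSpace ℂ (Fin n)) = n := finrank_euclideanSpace_fin
  set b := T.isSymmetric_adjoint_comp_self.eigenvectorBasis hn with hb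
  refine ⟨b, fun x => ?_⟩
  have h1 : ∀ i, inner ℂ (b i) ((LinearMap.adjoint T ∘ₗ T) x)
      = (((T.singularValues i) ^ 2 : ℝ) : ℂ) * inner ℂ (b i) x := by
    intro i
    have h2 := T.isSymmetric_adjoint_comp_self (b i) x
    rw [← h2, T.isSymmetric_adjoint_comp_self.apply_eigenvectorBasis hn i, inner_smul_left,
      T.sq_singularValues_fin hn i]
    simp only [RCLike.conj_ofReal]
    rfl
  have h3 : inner ℂ x ((LinearMap.adjoint T ∘ₗ T) x) = ((‖T x‖ ^ 2 : ℝ) : ℂ) := by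
    rw [LinearMap.comp_apply, LinearMap.adjoint_inner_right, inner_self_eq_norm_sq_to_K]
    push_cast; rfl
  have h4 := b.sum_inner_mul_inner x ((LinearMap.adjoint T ∘ₗ T) x)
  rw [h3] at h4
  have h5 : ((∑ i : Fin n, (T.singularValues i) ^ 2 * ‖inner ℂ (b i) x‖ ^ 2 : ℝ) : ℂ)
      = ((‖T x‖ ^ 2 : ℝ) : ℂ) := by
    rw [← h4, Complex.ofReal_sum]
    refine Finset.sum_congr rfl fun i _ => ?_
    rw [h1, ← inner_conj_symm x (b i)]
    push_cast
    rw [← Complex.conj_mul']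
    ring
  exact_mod_cast h5.symm

theorem kf1 {n : ℕ} {F : Type*} [NormedAddCommGroup F] [InnerProductSpace ℂ F]
    [FiniteDimensional ℂ F] (T : EuclideanSpace ℂ (Fin n) →ₗ[ℂ] F) (x : EuclideanSpace ℂ (Fin n)) :
    ‖T x‖ ^ 2 ≤ (T.singularValues 0) ^ 2 * ‖x‖ ^ 2 := by
  obtain ⟨b, hb⟩ := norm_sq_expand T
  rw [hb x]
  have h := b.sum_sq_norm_inner_right x
  rw [← h, Finset.mul_sum]
  refine Finset.sum_le_sum fun i _ => ?_
  have h1 : T.singularValues i ≤ T.singularValues 0 := T.singularValues_antitone (Nat.zero_le _)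
  have h2 := T.singularValues_nonneg i
  gcongr

theorem kf2 {n : ℕ} {F : Type*} [NormedAddCommGroup F] [InnerProductSpace ℂ F]
    [FiniteDimensional ℂ F] (T : EuclideanSpace ℂ (Fin n) →ₗ[ℂ] F) (x y : EuclideanSpace ℂ (Fin n))
    (h1 : ‖x‖ ^ 2 + ‖y‖ ^ 2 ≤ 2)
    (h2 : ∀ z : EuclideanSpace ℂ (Fin n), ‖z‖ = 1 → ‖inner ℂ z x‖ ^ 2 + ‖inner ℂ z y‖ ^ 2 ≤ 1) :
    ‖T x‖ ^ 2 + ‖T y‖ ^ 2 ≤ (T.singularValues 0) ^ 2 + (T.singularValues 1) ^ 2 := by
  obtain ⟨b, hb⟩ := norm_sq_expand T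
  rw [hb x, hb y, ← Finset.sum_add_distrib]
  have hx := b.sum_sq_norm_inner_right x
  have hy := b.sum_sq_norm_inner_right y
  rw [← hx, ← hy, ← Finset.sum_add_distrib] at h1
  cases n with
  | zero =>
    rw [Finset.univ_eq_empty, Finset.sum_empty]; positivity
  | succ n =>
    rw [Fin.sum_univ_succ] at h1 ⊢
    have h0 := h2 (b 0) (b.norm_eq_one 0)
    have h3 : ∀ i : Fin n, T.singularValues (i.succ : Fin (n + 1)) ^ 2 * ‖inner ℂ (b i.succ) x‖ ^ 2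
        + T.singularValues (i.succ : Fin (n + 1)) ^ 2 * ‖inner ℂ (b i.succ) y‖ ^ 2
        ≤ T.singularValues 1 ^ 2 * (‖inner ℂ (b i.succ) x‖ ^ 2 + ‖inner ℂ (b i.succ) y‖ ^ 2) := by
      intro i
      have h1 : T.singularValues (i.succ : Fin (n + 1)) ≤ T.singularValues 1 :=
        T.singularValues_antitone (by simp)
      have h2 := T.singularValues_nonneg (i.succ : Fin (n + 1))
      have h3 : T.singularValues (i.succ : Fin (n + 1)) ^ 2 ≤ T.singularValues 1 ^ 2 := by gcongr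
      nlinarith [sq_nonneg ‖inner ℂ (b i.succ) x‖, sq_nonneg ‖inner ℂ (b i.succ) y‖]
    have h4 := Finset.sum_le_sum fun i (_ : i ∈ (Finset.univ : Finset (Fin n))) => h3 i
    rw [← Finset.mul_sum] at h4
    set R := ∑ i : Fin n, (‖inner ℂ (b i.succ) x‖ ^ 2 + ‖inner ℂ (b i.succ) y‖ ^ 2) with hR
    have h5 : T.singularValues 1 ^ 2 ≤ T.singularValues 0 ^ 2 := by
      have := T.singularValues_antitone (Nat.zero_le 1)
      have h2 := T.singularValues_nonneg 1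
      gcongr
    have h6 : (0 : ℝ) ≤ T.singularValues 1 ^ 2 := by positivity
    have h7 : (((0 : Fin (n + 1)) : ℕ)) = 0 := rfl
    rw [h7]
    nlinarith

end Pool.Agent.Q161.BW
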