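import Mathlib
import Pool.Agent.Q161.BW.KF

set_option autoImplicit false

namespace Pool.Agent.Q161.BW

open Module Matrix

section
open scoped MatrixOrder Matrix.Norms.L2Operator ComplexOrder

theorem exists_sqrt {m : ℕ} (M : Matrix (Fin m) (Fin m) ℂ) (hM : M.PosSemidef) :
    ∃ S : Matrix (Fin m) (Fin m) ℂ, Sᴴ * S = M := by
  obtain ⟨S, hS⟩ := CStarAlgebra.nonneg_iff_eq_star_mul_self.mp hM.nonneg
  exact ⟨S, hS.symm⟩

end

/-- the singular values of a matrix, in decreasing order, counted from `0` -/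
noncomputable def sv {m n : ℕ} (Z : Matrix (Fin m) (Fin n) ℂ) (i : ℕ) : ℝ :=
  (Matrix.toEuclideanLin Z).singularValues i

open scoped ComplexOrder in
theorem exists_dil {m n : ℕ} (B : Matrix (Fin n) (Fin m) ℂ) (hB : sv B 0 ≤ 1) :
    ∃ S : Matrix (Fin m) (Fin m) ℂ, Bᴴ * B + Sᴴ * S = 1 := by
  have hpsd : (1 - Bᴴ * B).PosSemidef := by
    refine Matrix.PosSemidef.of_dotProduct_mulVec_nonneg ?_ ?_
    · rw [Matrix.IsHermitian, Matrix.conjTranspose_sub, Matrix.conjTranspose_mul,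
        Matrix.conjTranspose_conjTranspose, Matrix.conjTranspose_one]
    · intro x
      set ψ : EuclideanSpace ℂ (Fin m) := WithLp.toLp 2 x with hψ
      have h1 : star x ⬝ᵥ ((1 - Bᴴ * B) *ᵥ x) = inner ℂ ψ (ap (1 - Bᴴ * B) ψ) := by
        rw [EuclideanSpace.inner_eq_star_dotProduct, dotProduct_comm]
        rfl
      have h2 : ap (1 - Bᴴ * B) ψ = ψ - ap Bᴴ (ap B ψ) := by
        have e0 : ap (1 - Bᴴ * B) ψ = ap 1 ψ - ap (Bᴴ * B) ψ := by
          rw [ap, map_sub]; rfl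
        have e1 : ap (1 : Matrix (Fin m) (Fin m) ℂ) ψ = ψ := by simp [ap]
        rw [e0, e1, ap_mul]
      have h3 : inner ℂ ψ (ap (1 - Bᴴ * B) ψ) = ((‖ψ‖ ^ 2 - ‖ap B ψ‖ ^ 2 : ℝ) : ℂ) := by
        rw [h2, inner_sub_right, inner_ap, Matrix.conjTranspose_conjTranspose,
          inner_self_eq_norm_sq_to_K, inner_self_eq_norm_sq_to_K]
        push_cast; rfl
      rw [h1, h3]
      have h4 := kf1 (Matrix.toEuclideanLin B) ψ
      have h5 : 0 ≤ sv B 0 := (Matrix.toEuclideanLin B).singularValues_nonneg 0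
      have h6 : ‖ap B ψ‖ ^ 2 ≤ ‖ψ‖ ^ 2 := by
        have h7 : sv B 0 ^ 2 ≤ 1 := by nlinarith
        calc ‖ap B ψ‖ ^ 2 ≤ sv B 0 ^ 2 * ‖ψ‖ ^ 2 := h4
          _ ≤ 1 * ‖ψ‖ ^ 2 := by gcongr
          _ = ‖ψ‖ ^ 2 := one_mul _
      have h8 : (0 : ℝ) ≤ ‖ψ‖ ^ 2 - ‖ap B ψ‖ ^ 2 := by linarith
      exact_mod_cast h8
  obtain ⟨S, hS⟩ := exists_sqrt _ hpsd
  exact ⟨S, by rw [hS, add_sub_cancel]⟩

theorem fr_isom {ι κ μ : Type} [Fintype ι] [DecidableEq ι] [Fintype κ] [DecidableEq κ] [Fintype μ]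
    [DecidableEq μ] (V : Matrix ι κ ℂ) (hV : Vᴴ * V = 1) (Z : Matrix κ μ ℂ) : fr (V * Z) = fr Z := by
  have h : ((fr (V * Z) : ℝ) : ℂ) = ((fr Z : ℝ) : ℂ) := by
    rw [← fr_eq_trace, ← fr_eq_trace, Matrix.conjTranspose_mul, Matrix.mul_assoc Zᴴ,
      ← Matrix.mul_assoc Vᴴ, hV, Matrix.one_mul]
  exact_mod_cast h

theorem norm_isom {ι κ : Type} [Fintype ι] [DecidableEq ι] [Fintype κ] [DecidableEq κ]
    (V : Matrix ι κ ℂ) (hV : Vᴴ * V = 1) (x : EuclideanSpace ℂ κ) : ‖ap V x‖ = ‖x‖ := by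
  have h : ((‖ap V x‖ ^ 2 : ℝ) : ℂ) = ((‖x‖ ^ 2 : ℝ) : ℂ) := by
    have h1 : inner ℂ (ap V x) (ap V x) = inner ℂ x x := by
      rw [inner_ap, ← ap_mul, hV]
      congr 1
      simp [ap]
    rw [inner_self_eq_norm_sq_to_K, inner_self_eq_norm_sq_to_K] at h1
    push_cast
    exact h1
  have h2 : ‖ap V x‖ ^ 2 = ‖x‖ ^ 2 := by exact_mod_cast h
  exact (sq_eq_sq₀ (norm_nonneg _) (norm_nonneg _)).1 h2

theorem contr {m n : ℕ} (A C : Matrix (Fin m) (Fin n) ℂ) (B : Matrix (Fin n) (Fin m) ℂ)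
    (hB : sv B 0 ≤ 1) :
    fr (A * B * C - C * B * A) ≤ 2 * (sv A 0 ^ 2 + sv A 1 ^ 2) * fr C := by
  obtain ⟨S, hS⟩ := exists_dil B hB
  set V : Matrix (Fin n ⊕ Fin m) (Fin m) ℂ := Matrix.fromRows B S with hVdef
  have hV : Vᴴ * V = 1 := by
    rw [hVdef, Matrix.conjTranspose_fromRows_eq_fromCols_conjTranspose, Matrix.fromCols_mul_fromRows, hS]
  set P : Matrix (Fin n) (Fin n ⊕ Fin m) ℂ := Matrix.fromCols 1 0 with hP
  have hPP : Pᴴᴴ * Pᴴ = 1 := by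
    rw [hP, Matrix.conjTranspose_conjTranspose, Matrix.conjTranspose_fromCols_eq_fromRows_conjTranspose,
      Matrix.fromCols_mul_fromRows]
    simp
  have hPV : ∀ Z : Matrix (Fin m) (Fin n) ℂ, (Z * P) * V = Z * B := by
    intro Z
    rw [Matrix.mul_assoc, hP, hVdef, Matrix.fromCols_mul_fromRows]
    simp
  have hfrP : ∀ Z : Matrix (Fin m) (Fin n) ℂ, fr (Z * P) = fr Z := by
    intro Z
    rw [← fr_conjTranspose, Matrix.conjTranspose_mul, fr_isom _ hPP, fr_conjTranspose]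
  set X := V * (A * P) with hX
  set Y := V * (C * P) with hY
  have hcomm : X * Y - Y * X = V * ((A * B * C - C * B * A) * P) := by
    rw [hX, hY]
    have e1 : V * (A * P) * (V * (C * P)) = V * ((A * B * C) * P) := by
      rw [Matrix.mul_assoc V, ← Matrix.mul_assoc (A * P), hPV]
      simp only [Matrix.mul_assoc]
    have e2 : V * (C * P) * (V * (A * P)) = V * ((C * B * A) * P) := by
      rw [Matrix.mul_assoc V, ← Matrix.mul_assoc (C * P), hPV]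
      simp only [Matrix.mul_assoc]
    rw [e1, e2, ← Matrix.mul_sub, ← Matrix.sub_mul]
  have hPn : ∀ x : EuclideanSpace ℂ (Fin n ⊕ Fin m), ‖ap P x‖ ≤ ‖x‖ := by
    intro x
    have h1 : inner ℂ (ap P x) (ap P x) = inner ℂ (ap Pᴴ (ap P x)) x := inner_ap P _ _
    have h2 : ‖ap P x‖ ^ 2 ≤ ‖ap P x‖ * ‖x‖ := by
      have h3 := norm_inner_le_norm (𝕜 := ℂ) (ap Pᴴ (ap P x)) x
      rw [← h1, norm_isom _ hPP, inner_self_eq_norm_sq_to_K] at h3
      simpa using h3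
    by_cases h0 : ‖ap P x‖ = 0
    · rw [h0]; exact norm_nonneg _
    · have : 0 < ‖ap P x‖ := lt_of_le_of_ne (norm_nonneg _) (Ne.symm h0)
      nlinarith
  have hXn : ∀ x, ‖ap X x‖ = ‖Matrix.toEuclideanLin A (ap P x)‖ := by
    intro x
    rw [hX, ap_mul, norm_isom V hV, ap_mul]; rfl
  have K2 : ∀ x y : EuclideanSpace ℂ (Fin n ⊕ Fin m), ‖x‖ = 1 → ‖y‖ = 1 → inner ℂ x y = 0 →
      ‖ap X x‖ ^ 2 + ‖ap X y‖ ^ 2 ≤ sv A 0 ^ 2 + sv A 1 ^ 2 := by
    intro x y hx hy hxy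
    rw [hXn, hXn]
    refine kf2 _ _ _ ?_ ?_
    · have h1 := hPn x
      have h2 := hPn y
      rw [hx] at h1; rw [hy] at h2
      nlinarith [norm_nonneg (ap P x), norm_nonneg (ap P y)]
    · intro z hz
      rw [inner_ap, inner_ap]
      have := bessel_pair x y (ap Pᴴ z) hx hy hxy
      rwa [norm_isom _ hPP, hz, one_pow] at this
  have K1 : ∀ x : EuclideanSpace ℂ (Fin n ⊕ Fin m), ‖x‖ = 1 →
      ‖ap X x‖ ^ 2 ≤ sv A 0 ^ 2 + sv A 1 ^ 2 := by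
    intro x hx
    rw [hXn]
    have h1 := kf1 (Matrix.toEuclideanLin A) (ap P x)
    have h2 := hPn x
    rw [hx] at h2
    have h3 : ‖ap P x‖ ^ 2 ≤ 1 := by nlinarith [norm_nonneg (ap P x)]
    have h4 : (0 : ℝ) ≤ sv A 1 ^ 2 := by positivity
    have h5 : (0 : ℝ) ≤ sv A 0 ^ 2 := by positivity
    calc _ ≤ sv A 0 ^ 2 * ‖ap P x‖ ^ 2 := h1
      _ ≤ sv A 0 ^ 2 * 1 := by gcongr
      _ ≤ _ := by linarith
  have h := comm_bound X Y (sv A 0 ^ 2 + sv A 1 ^ 2) (fun ψ => pform X _ K1 K2 ψ)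
  rw [hcomm, fr_isom V hV, hfrP, hY, fr_isom V hV, hfrP] at h
  exact h

theorem sv_smul {m n : ℕ} (B : Matrix (Fin n) (Fin m) ℂ) (t : ℝ) (ht : 0 < t) (h : sv B 0 ≤ t) :
    sv (((t⁻¹ : ℝ) : ℂ) • B) 0 ≤ 1 := by
  set B' := ((t⁻¹ : ℝ) : ℂ) • B with hB'
  obtain ⟨b, hb⟩ := norm_sq_expand (Matrix.toEuclideanLin B')
  cases m with
  | zero =>
    have : sv B' 0 = 0 := (Matrix.toEuclideanLin B').singularValues_of_finrank_le
      (by rw [finrank_euclideanSpace_fin])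
    rw [this]; norm_num
  | succ m =>
    have h1 := hb (b 0)
    rw [Finset.sum_eq_single 0 (fun i _ hi => by rw [b.inner_eq_zero hi]; simp) (by simp)] at h1
    rw [inner_self_eq_norm_sq_to_K, b.norm_eq_one] at h1
    have h2 : Matrix.toEuclideanLin B' (b 0) = ((t⁻¹ : ℝ) : ℂ) • Matrix.toEuclideanLin B (b 0) := by
      rw [hB', map_smul]; rfl
    have h3 := kf1 (Matrix.toEuclideanLin B) (b 0)
    rw [h2, norm_smul, Complex.norm_real, norm_inv, Real.norm_of_nonneg ht.le] at h1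
    have h4 : sv B' 0 ^ 2 = (t⁻¹ * ‖Matrix.toEuclideanLin B (b 0)‖) ^ 2 := by
      rw [h1]; simp [sv]
    have h5 : ‖Matrix.toEuclideanLin B (b 0)‖ ≤ t := by
      have h6 : 0 ≤ sv B 0 := (Matrix.toEuclideanLin B).singularValues_nonneg 0
      rw [b.norm_eq_one, one_pow, mul_one] at h3
      have h7 : ‖Matrix.toEuclideanLin B (b 0)‖ ≤ sv B 0 := le_of_sq_le_sq h3 h6
      linarith
    have h8 : 0 ≤ sv B' 0 := (Matrix.toEuclideanLin B').singularValues_nonneg 0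
    have h9 : sv B' 0 = t⁻¹ * ‖Matrix.toEuclideanLin B (b 0)‖ :=
      (sq_eq_sq₀ h8 (by positivity)).1 h4
    rw [h9, inv_mul_le_iff₀ ht, mul_one]
    exact h5

theorem main {m n : ℕ} (A C : Matrix (Fin m) (Fin n) ℂ) (B : Matrix (Fin n) (Fin m) ℂ) :
    fr (A * B * C - C * B * A) ≤ 2 * sv B 0 ^ 2 * (sv A 0 ^ 2 + sv A 1 ^ 2) * fr C := by
  have hkey : ∀ t : ℝ, 0 < t → sv B 0 ≤ t →
      fr (A * B * C - C * B * A) ≤ 2 * t ^ 2 * (sv A 0 ^ 2 + sv A 1 ^ 2) * fr C := by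
    intro t ht h
    have h1 := contr A C (((t⁻¹ : ℝ) : ℂ) • B) (sv_smul B t ht h)
    have h2 : A * (((t⁻¹ : ℝ) : ℂ) • B) * C - C * (((t⁻¹ : ℝ) : ℂ) • B) * A
        = ((t⁻¹ : ℝ) : ℂ) • (A * B * C - C * B * A) := by
      rw [Matrix.mul_smul, Matrix.mul_smul, Matrix.smul_mul, Matrix.smul_mul, smul_sub]
    have h3 : fr (((t⁻¹ : ℝ) : ℂ) • (A * B * C - C * B * A))
        = t⁻¹ ^ 2 * fr (A * B * C - C * B * A) := by
      simp only [fr, Matrix.smul_apply, norm_smul, Complex.norm_real, norm_inv,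
        Real.norm_of_nonneg ht.le, mul_pow, Finset.mul_sum]
    rw [h2, h3] at h1
    have h4 : fr (A * B * C - C * B * A) = t ^ 2 * (t⁻¹ ^ 2 * fr (A * B * C - C * B * A)) := by
      field_simp
    rw [h4]
    calc _ ≤ t ^ 2 * (2 * (sv A 0 ^ 2 + sv A 1 ^ 2) * fr C) := by gcongr
      _ = _ := by ring
  have h0 : 0 ≤ sv B 0 := (Matrix.toEuclideanLin B).singularValues_nonneg 0
  rcases h0.lt_or_eq with hpos | hzero
  · exact hkey _ hpos le_rfl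
  · rw [← hzero]
    have hlim : Filter.Tendsto (fun k : ℕ => 2 * (1 / ((k : ℝ) + 1)) ^ 2 * (sv A 0 ^ 2 + sv A 1 ^ 2) * fr C)
        Filter.atTop (nhds (2 * 0 ^ 2 * (sv A 0 ^ 2 + sv A 1 ^ 2) * fr C)) := by
      have := (tendsto_one_div_add_atTop_nhds_zero_nat (𝕜 := ℝ))
      exact (((this.pow 2).const_mul 2).mul_const _).mul_const _
    exact ge_of_tendsto' hlim fun k => hkey _ (by positivity) (by rw [← hzero]; positivity)

end Pool.Agent.Q161.BW
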